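import Pool.Agent.H695R3.PP.Stmts

/-! Task TaskG1 of the project H695-LP (helper721): the probability of the first bad event. -/

set_option autoImplicit false

open scoped BigOperators ENNReal
open MeasureTheory

namespace Pool.Agent.H721R3.PPG1

open Pool.Agent.H695R3.PP

lemma rsol_eig (V : ℤ → ℝ) (L : ℕ) (E : ℝ) (ψ : ℤ → ℝ) (h : IsEig V (-(L : ℤ)) L E ψ) (j : ℕ)
    (hj : j ≤ L) :
    ψ ((L : ℤ) - j) = (rsol V E L j).1 * ψ L ∧
      ψ ((L : ℤ) - j + 1) = (rsol V E L j).2 * ψ L := by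
  induction j with
  | zero =>
    constructor
    · simp [rsol]
    · have h1 := h.1 ((L : ℤ) + 1) (Or.inr (by omega))
      simp [rsol, h1]
  | succ j ih =>
    obtain ⟨h1, h2⟩ := ih (by omega)
    have h3 := h.2.2 ((L : ℤ) - j) (by omega) (by omega)
    constructor
    · have h5 : ψ ((L : ℤ) - ((j + 1 : ℕ) : ℤ)) =
          (E - V (L - j)) * ψ (L - j) - ψ (L - j + 1) := by
        have h4 : (L : ℤ) - ((j + 1 : ℕ) : ℤ) = L - j - 1 := by push_cast; ring
        rw [h4]; linarith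
      rw [h5, h1, h2]; simp only [rsol]; ring
    · have h4 : (L : ℤ) - ((j + 1 : ℕ) : ℤ) + 1 = L - j := by push_cast; ring
      rw [h4, h1]; simp only [rsol]

lemma eig_zero (V : ℤ → ℝ) (L : ℕ) (E : ℝ) (ψ : ℤ → ℝ) (h : IsEig V (-(L : ℤ)) L E ψ) :
    ψ 0 = (rsol V E L L).1 * ψ L := by
  have := (rsol_eig V L E ψ h L le_rfl).1
  rwa [sub_self] at this

lemma abs_le_one (V : ℤ → ℝ) (a b : ℤ) (E : ℝ) (ψ : ℤ → ℝ) (h : IsEig V a b E ψ) (n : ℤ) :
    |ψ n| ≤ 1 := by
  by_cases hn : n < a ∨ b < n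
  · rw [h.1 n hn]; simp
  · push Not at hn
    have h1 : ψ n ^ 2 ≤ nsq a b ψ :=
      Finset.single_le_sum (f := fun n => ψ n ^ 2) (fun i _ => sq_nonneg _)
        (Finset.mem_Icc.2 hn)
    rw [h.2.1] at h1
    rw [← sq_le_one_iff_abs_le_one]
    exact h1

lemma energy_le (V : ℤ → ℝ) (a b : ℤ) (E M : ℝ) (ψ : ℤ → ℝ) (h : IsEig V a b E ψ)
    (hV : ∀ n, |V n| ≤ M) : |E| ≤ 2 + M := by
  have hne : (Finset.Icc a b).Nonempty := by
    by_contra hc
    rw [Finset.not_nonempty_iff_eq_empty] at hc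
    have := h.2.1
    unfold nsq at this
    rw [hc] at this
    simp at this
  obtain ⟨m, hm, hmax⟩ := Finset.exists_max_image (Finset.Icc a b) (fun n => |ψ n|) hne
  have hall : ∀ n, |ψ n| ≤ |ψ m| := by
    intro n
    by_cases hn : n < a ∨ b < n
    · rw [h.1 n hn, abs_zero]; exact abs_nonneg _
    · push Not at hn
      exact hmax n (Finset.mem_Icc.2 hn)
  have hpos : 0 < |ψ m| := by
    by_contra hc
    have h0 : ∀ n, ψ n = 0 := fun n => abs_eq_zero.1 (le_antisymm (le_trans (hall n) (not_lt.1 hc))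
      (abs_nonneg _))
    have := h.2.1
    unfold nsq at this
    simp [h0] at this
  rw [Finset.mem_Icc] at hm
  have h1 := h.2.2 m hm.1 hm.2
  have h2 : |E| * |ψ m| ≤ (2 + M) * |ψ m| := by
    rw [← abs_mul, ← h1]
    calc |ψ (m + 1) + ψ (m - 1) + V m * ψ m| ≤ |ψ (m + 1) + ψ (m - 1)| + |V m * ψ m| := abs_add_le _ _
      _ ≤ |ψ (m + 1)| + |ψ (m - 1)| + |V m| * |ψ m| := by
        rw [abs_mul]; exact add_le_add (abs_add_le _ _) le_rfl
      _ ≤ |ψ m| + |ψ m| + M * |ψ m| := by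
        have := mul_le_mul_of_nonneg_right (hV m) hpos.le
        have := hall (m + 1)
        have := hall (m - 1)
        linarith
      _ = _ := by ring
  exact le_of_mul_le_mul_right h2 hpos

lemma rsol_congr (V V' : ℤ → ℝ) (E : ℝ) (L : ℕ) (h : ∀ n : ℤ, 1 ≤ n → V n = V' n) (j : ℕ)
    (hj : j ≤ L) : rsol V E L j = rsol V' E L j := by
  induction j with
  | zero => rfl
  | succ j ih =>
    simp only [rsol]
    rw [ih (by omega), h _ (by omega)]

lemma rsol_cont (b : ℤ) (j : ℕ) :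
    Continuous (fun p : (ℤ → ℝ) × ℝ => rsol p.1 p.2 b j) := by
  induction j with
  | zero => exact continuous_const
  | succ j ih =>
    simp only [rsol]
    refine Continuous.prodMk ?_ (continuous_fst.comp ih)
    refine Continuous.sub (Continuous.mul ?_ (continuous_fst.comp ih)) (continuous_snd.comp ih)
    exact continuous_snd.sub ((continuous_apply _).comp continuous_fst)

lemma ae_le : ∀ᵐ x ∂PZ, ∀ n, |x n| ≤ 1 := by
  rw [ae_all_iff]
  intro n
  have h1 := measurePreserving_eval_infinitePi (fun _ : ℤ => U) n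
  have h2 : ∀ᵐ s ∂U, |s| ≤ 1 := by
    unfold U
    refine Measure.ae_smul_measure ?_ _
    rw [ae_restrict_iff' measurableSet_Icc]
    exact Filter.Eventually.of_forall fun s hs => abs_le.2 hs
  exact h1.quasiMeasurePreserving.ae h2

/-- Reflection preserves the measure. -/
lemma refl_mp : MeasurePreserving (fun (x : ℤ → ℝ) (n : ℤ) => x (-n)) PZ PZ := by
  refine ⟨by fun_prop, ?_⟩
  unfold PZ
  refine Measure.eq_infinitePi (fun _ : ℤ => U) fun s t ht => ?_
  rw [Measure.map_apply (by fun_prop) (.pi s.countable_toSet fun _ _ => ht _)]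
  have h1 : (fun (x : ℤ → ℝ) (n : ℤ) => x (-n)) ⁻¹' ((s : Set ℤ).pi t) =
      ((s.map (Equiv.neg ℤ).toEmbedding : Finset ℤ) : Set ℤ).pi (fun n => t (-n)) := by
    ext x
    simp only [Set.mem_preimage, Set.mem_pi, Finset.mem_coe, Finset.mem_map,
      Equiv.coe_toEmbedding, Equiv.neg_apply]
    constructor
    · rintro h i ⟨j, hj, rfl⟩
      have := h j hj
      rwa [neg_neg]
    · intro h i hi
      have := h (-i) ⟨i, hi, rfl⟩
      rwa [neg_neg] at this
  rw [h1, Measure.infinitePi_pi _ (fun i _ => ht _), Finset.prod_map]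
  refine Finset.prod_congr rfl fun i _ => ?_
  simp

lemma refl_eig (V : ℤ → ℝ) (L : ℕ) (E : ℝ) (ψ : ℤ → ℝ) (h : IsEig V (-(L : ℤ)) L E ψ) :
    IsEig (fun n => V (-n)) (-(L : ℤ)) L E (fun n => ψ (-n)) := by
  refine ⟨fun n hn => h.1 (-n) (by omega), ?_, ?_⟩
  · rw [← h.2.1]
    unfold nsq
    refine Finset.sum_equiv (Equiv.neg ℤ) (fun i => ?_) (fun i _ => rfl)
    simp only [Finset.mem_Icc, Equiv.neg_apply]
    omega
  · intro n hn1 hn2
    have h1 := h.2.2 (-n) (by omega) (by omega)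
    have h2 : -(n + 1) = -n - 1 := by ring
    have h3 : -(n - 1) = -n + 1 := by ring
    show ψ (-(n + 1)) + ψ (-(n - 1)) + V (-n) * ψ (-n) = E * ψ (-n)
    rw [h2, h3]
    linarith

/-- The event at the right end. -/
def G (ε a τ : ℝ) (W : ℤ → ℝ) (L : ℕ) : Set (ℤ → ℝ) :=
  {x | ∃ E ψ, IsEig (fun n => W n + ε * x n) (-(L : ℤ)) L E ψ ∧ a ≤ |ψ 0| ∧ τ ≤ |ψ L|}

lemma G_le (hSAP : TaskSAP) (hCl : TaskClosed) (c C : ℝ) (hc : 0 < c) (hc2 : c ≤ 1 / 2)
    (hC : 0 < C)
    (hFE : ∀ (ε R E t : ℝ) (W : ℤ → ℝ) (L : ℕ),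
      0 < ε → ε ≤ 1 → 1 ≤ R → |E| ≤ R → (∀ n, |W n| ≤ R) → 0 < t → 1 ≤ L →
      PZ {x | |(rsol (fun n => W n + ε * x n) E L L).1| ≤ t} ≤
        ENNReal.ofReal (C * R / ε ^ 2 * t * (1 - c * ε ^ 2) ^ L))
    (ε R a τ : ℝ) (W : ℤ → ℝ) (L : ℕ)
    (hε : 0 < ε) (hε1 : ε ≤ 1) (hR : 1 ≤ R) (hW : ∀ n, |W n| ≤ R) (ha : 0 < a) (hτ : 0 < τ)
    (hL : 1 ≤ L) :
    PZ (G ε a τ W L) ≤
      ENNReal.ofReal (16 * C * R ^ 2 / (ε ^ 3 * a ^ 2 * τ) * (1 - c * ε ^ 2) ^ L) := by
  set A : (ℤ → ℝ) → Set ℝ := fun x =>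
    {E | |E| ≤ 4 * R ∧ |(rsol (fun n => W n + ε * x n) E L L).1| ≤ 1 / τ} with hA
  set B : Set (ℤ → ℝ) := {x | ∃ E ψ, |E| ≤ 4 * R ∧
    IsEig (fun n => W n + ε * x n) (-(L : ℤ)) L E ψ ∧ a ^ 2 ≤ ψ 0 ^ 2 ∧
    |(rsol (fun n => W n + ε * x n) E L L).1| ≤ 1 / τ} with hB
  have hsub : (G ε a τ W L) ≤ᵐ[PZ] B := by
    filter_upwards [ae_le] with x hx hxG
    obtain ⟨E, ψ, h1, h2, h3⟩ := hxG
    refine ⟨E, ψ, ?_, h1, ?_, ?_⟩
    · have h4 := energy_le _ _ _ E (R + 1) ψ h1 (fun n => by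
        calc |W n + ε * x n| ≤ |W n| + |ε * x n| := abs_add_le _ _
          _ ≤ R + 1 := by
            rw [abs_mul, abs_of_pos hε]
            have h5 : ε * |x n| ≤ 1 * 1 := mul_le_mul hε1 (hx n) (abs_nonneg _) zero_le_one
            have := hW n
            linarith)
      linarith
    · rw [← sq_abs (ψ 0)]
      exact pow_le_pow_left₀ ha.le h2 2
    · have h4 := eig_zero _ L E ψ h1
      have h5 := abs_le_one _ _ _ E ψ h1 0
      rw [h4, abs_mul] at h5
      rw [le_div_iff₀ hτ]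
      exact le_trans (mul_le_mul_of_nonneg_left h3 (abs_nonneg _)) h5
  have hBcl : IsClosed B := by
    have k1 : IsClosed {p : (ℝ × (ℤ → ℝ)) × (ℤ → ℝ) | a ^ 2 ≤ p.1.2 0 ^ 2} := by
      refine isClosed_le continuous_const ?_
      exact ((continuous_apply (0 : ℤ)).comp (continuous_snd.comp continuous_fst)).pow 2
    have k2 : IsClosed {p : (ℝ × (ℤ → ℝ)) × (ℤ → ℝ) | |(rsol p.2 p.1.1 L L).1| ≤ 1 / τ} := by
      refine isClosed_le ?_ continuous_const
      refine continuous_abs.comp (continuous_fst.comp ?_)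
      exact (rsol_cont L L).comp (continuous_snd.prodMk (continuous_fst.comp continuous_fst))
    have h1 := hCl (-(L : ℤ)) L (4 * R) _ (k1.inter k2)
    have h2 : Continuous (fun (x : ℤ → ℝ) (n : ℤ) => W n + ε * x n) :=
      continuous_pi fun n => continuous_const.add (continuous_const.mul (continuous_apply n))
    exact h1.preimage h2
  have hAinv : ∀ (x : ℤ → ℝ) (s : ℝ), A (Function.update x 0 s) = A x := by
    intro x s
    ext E
    simp only [hA, Set.mem_setOf_eq]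
    rw [rsol_congr (fun n => W n + ε * Function.update x 0 s n) (fun n => W n + ε * x n) E L
      (fun n hn => by
        show W n + ε * Function.update x 0 s n = W n + ε * x n
        rw [Function.update_of_ne (by omega)]) L le_rfl]
  have hmain := hSAP W ε (a ^ 2) (-(L : ℤ)) L 0 A B hε (by positivity) hBcl.measurableSet hAinv
    (by
      rintro x ⟨E, ψ, h1, h2, h3, h4⟩
      exact ⟨E, ⟨h1, h4⟩, ψ, h2, h3⟩)
  -- Tonelli
  set S : Set ((ℤ → ℝ) × ℝ) :=
    {p | |p.2| ≤ 4 * R ∧ |(rsol (fun n => W n + ε * p.1 n) p.2 L L).1| ≤ 1 / τ} with hS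
  have hScl : IsClosed S := by
    have k1 : IsClosed {p : (ℤ → ℝ) × ℝ | |p.2| ≤ 4 * R} :=
      isClosed_le (continuous_abs.comp continuous_snd) continuous_const
    have k2 : IsClosed {p : (ℤ → ℝ) × ℝ |
        |(rsol (fun n => W n + ε * p.1 n) p.2 L L).1| ≤ 1 / τ} := by
      refine isClosed_le ?_ continuous_const
      refine continuous_abs.comp (continuous_fst.comp ?_)
      refine (rsol_cont L L).comp (Continuous.prodMk ?_ continuous_snd)
      exact continuous_pi fun n => continuous_const.add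
        (continuous_const.mul ((continuous_apply n).comp continuous_fst))
    exact k1.inter k2
  set β : ℝ≥0∞ := ENNReal.ofReal (C * (4 * R) / ε ^ 2 * (1 / τ) * (1 - c * ε ^ 2) ^ L) with hβ
  have hton : ∫⁻ x, volume (A x) ∂PZ ≤ β * ENNReal.ofReal (2 * (4 * R)) := by
    have h1 : ∫⁻ x, volume (A x) ∂PZ = (PZ.prod volume) S := by
      rw [Measure.prod_apply hScl.measurableSet]
      rfl
    rw [h1, Measure.prod_apply_symm hScl.measurableSet]
    have h2 : ∀ E : ℝ, PZ ((fun x => (x, E)) ⁻¹' S) ≤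
        (Set.Icc (-(4 * R)) (4 * R)).indicator (fun _ => β) E := by
      intro E
      by_cases hE : E ∈ Set.Icc (-(4 * R)) (4 * R)
      · rw [Set.indicator_of_mem hE]
        refine le_trans (measure_mono ?_) (hFE ε (4 * R) E (1 / τ) W L hε hε1 (by linarith)
          (abs_le.2 hE) (fun n => by have := hW n; linarith) (by positivity) hL)
        intro x hx
        exact hx.2
      · rw [Set.indicator_of_notMem hE]
        have : (fun x : ℤ → ℝ => (x, E)) ⁻¹' S = ∅ := by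
          ext x
          simp only [Set.mem_preimage, Set.mem_empty_iff_false, iff_false]
          intro hx
          exact hE (abs_le.1 hx.1)
        rw [this, measure_empty]
    refine le_trans (lintegral_mono h2) ?_
    rw [lintegral_indicator measurableSet_Icc, lintegral_const, Measure.restrict_apply_univ,
      Real.volume_Icc]
    refine le_of_eq ?_
    congr 2
    ring
  have hc1 : 0 ≤ 1 - c * ε ^ 2 := by
    have h1 : ε ^ 2 ≤ 1 := pow_le_one₀ hε.le hε1
    nlinarith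
  calc PZ (G ε a τ W L) ≤ PZ B := measure_mono_ae hsub
    _ ≤ ∫⁻ x, ENNReal.ofReal (1 / (2 * ε * a ^ 2)) * volume (A x) ∂PZ := hmain
    _ = ENNReal.ofReal (1 / (2 * ε * a ^ 2)) * ∫⁻ x, volume (A x) ∂PZ :=
      lintegral_const_mul' _ _ ENNReal.ofReal_ne_top
    _ ≤ ENNReal.ofReal (1 / (2 * ε * a ^ 2)) * (β * ENNReal.ofReal (2 * (4 * R))) := by gcongr
    _ = _ := by
      rw [hβ, ← ENNReal.ofReal_mul (by positivity), ← ENNReal.ofReal_mul (by positivity)]
      congr 1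
      field_simp
      ring

theorem taskG1 : TaskSAP → TaskFE → TaskClosed → TaskG1 := by
  intro hSAP hFE hCl
  obtain ⟨c, C, hc, hc2, hC, hFE⟩ := hFE
  refine ⟨c, 32 * C, hc, hc2, by positivity, ?_⟩
  intro ε R a τ W L hε hε1 hR hW ha hτ hL
  have h1 := G_le hSAP hCl c C hc hc2 hC hFE ε R a τ W L hε hε1 hR hW ha hτ hL
  have h2 := G_le hSAP hCl c C hc hc2 hC hFE ε R a τ (fun n => W (-n)) L hε hε1 hR
    (fun n => hW _) ha hτ hL
  have h3 : {x : ℤ → ℝ | Bad1 L a τ (fun n => W n + ε * x n)} ⊆ G ε a τ W L ∪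
      (fun (x : ℤ → ℝ) (n : ℤ) => x (-n)) ⁻¹' G ε a τ (fun n => W (-n)) L := by
    rintro x ⟨E, ψ, hE, h0, h4 | h4⟩
    · exact Or.inl ⟨E, ψ, hE, h0, h4⟩
    · right
      refine ⟨E, fun n => ψ (-n), refl_eig _ L E ψ hE, ?_, ?_⟩
      · simpa using h0
      · exact h4
  have h4 := refl_mp.measure_preimage_le (G ε a τ (fun n => W (-n)) L)
  have hc1 : 0 ≤ 1 - c * ε ^ 2 := by
    have h1 : ε ^ 2 ≤ 1 := pow_le_one₀ hε.le hε1
    nlinarith
  calc PZ {x | Bad1 L a τ (fun n => W n + ε * x n)}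
      ≤ PZ (G ε a τ W L) + PZ ((fun (x : ℤ → ℝ) (n : ℤ) => x (-n)) ⁻¹'
        G ε a τ (fun n => W (-n)) L) := le_trans (measure_mono h3) (measure_union_le _ _)
    _ ≤ ENNReal.ofReal (16 * C * R ^ 2 / (ε ^ 3 * a ^ 2 * τ) * (1 - c * ε ^ 2) ^ L) +
        ENNReal.ofReal (16 * C * R ^ 2 / (ε ^ 3 * a ^ 2 * τ) * (1 - c * ε ^ 2) ^ L) :=
      add_le_add h1 (le_trans h4 h2)
    _ = _ := by
      rw [← ENNReal.ofReal_add (by positivity) (by positivity)]
      congr 1
      ring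

end Pool.Agent.H721R3.PPG1
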